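import Pool.Agent.Helper30.GA.Defs

/-!
# The half twist and the flip of words
-/

set_option autoImplicit false

namespace Pool.Agent.Helper85.GA

open Pool.Agent.Helper69.LZ Pool.Agent.Helper87.LZ Pool.Agent.Helper30.GA

variable {n : ℕ} {t : ℂ}

/-! ### Words -/

theorem flip_lt {w : List ℕ} (hw : ∀ a ∈ w, a < n) : ∀ a ∈ flip n w, a < n := by
  intro a ha
  unfold Helper30.GA.flip at ha
  obtain ⟨b, hb, rfl⟩ := List.mem_map.1 ha
  have := hw b hb
  omega

theorem flip_append (u v : List ℕ) : flip n (u ++ v) = flip n u ++ flip n v := by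
  unfold Helper30.GA.flip
  rw [List.map_append]

theorem flip_flatten (R : List (List ℕ)) : flip n R.flatten = (R.map (flip n)).flatten := by
  induction R with
  | nil => rfl
  | cons w R ih => rw [List.flatten_cons, flip_append, ih, List.map_cons, List.flatten_cons]

theorem flip_flip {w : List ℕ} (hw : ∀ a ∈ w, a < n) : flip n (flip n w) = w := by
  unfold Helper30.GA.flip
  rw [List.map_map]
  conv_rhs => rw [← List.map_id w]
  refine List.map_congr_left fun a ha => ?_
  have := hw a ha
  simp only [Function.comp, id]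
  omega

theorem once_flip_aux (w : List ℕ) : ∀ p q : ℕ → ℕ, (∀ a ∈ w, a < n) → (∀ j ≤ n, p j ≤ n) →
    (∀ j ≤ n, q j = n - p (n - j)) → Once p w → Once q (flip n w) := by
  induction w with
  | nil => intro p q _ _ _ _; exact trivial
  | cons a w ih =>
    intro p q hw hp hq h
    have ha : a < n := hw a (by simp)
    obtain ⟨h1, h2⟩ := h
    have e1 := hp a (by omega)
    have e2 := hp (a + 1) (by omega)
    have e3 : q (n - 1 - a) = n - p (a + 1) := by
      rw [hq _ (by omega)]
      congr 2
      omega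
    have e4 : q (n - 1 - a + 1) = n - p a := by
      rw [hq _ (by omega)]
      congr 2
      omega
    change q (n - 1 - a) < q (n - 1 - a + 1) ∧ Once (swp q (n - 1 - a)) (flip n w)
    refine ⟨by omega, ih (swp p a) _ (fun b hb => hw b (by simp [hb])) ?_ ?_ h2⟩
    · intro j hj
      unfold swp
      split_ifs
      · exact e2
      · exact e1
      · exact hp j hj
    · intro j hj
      unfold swp
      by_cases c1 : j = n - 1 - a
      · rw [if_pos c1, e4, if_neg (by omega), if_pos (by omega)]
      · rw [if_neg c1]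
        by_cases c2 : j = n - 1 - a + 1
        · rw [if_pos c2, e3, if_pos (by omega)]
        · rw [if_neg c2, if_neg (by omega), if_neg (by omega), hq j hj]

/-- The flip of a simple word is simple. -/
theorem once_flip {w : List ℕ} (hw : ∀ a ∈ w, a < n) (h : Once id w) : Once id (flip n w) := by
  refine once_flip_aux w id id hw (fun j hj => hj) (fun j hj => ?_) h
  simp only [id]
  omega

/-! ### The action -/

theorem run_zero (w : List ℕ) {L : ℕ → ℂ} (h0 : L 0 = 0) : run t w L 0 = 0 := by
  induction w generalizing L with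
  | nil => exact h0
  | cons a w ih =>
    rw [run_cons]
    refine ih ?_
    unfold sg
    rw [Function.update_of_ne (by omega)]
    exact h0

theorem run_gt {w : List ℕ} (hw : ∀ a ∈ w, a < n) {L : ℕ → ℂ} (hn : ∀ j, n < j → L j = 0) :
    ∀ j, n < j → run t w L j = 0 := by
  induction w generalizing L with
  | nil => exact hn
  | cons a w ih =>
    rw [run_cons]
    refine ih (fun b hb => hw b (by simp [hb])) fun j hj => ?_
    have := hw a (by simp)
    unfold sg
    rw [Function.update_of_ne (by omega)]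
    exact hn j hj

theorem sg_smul (j : ℕ) (c : ℂ) (L : ℕ → ℂ) : sg t j (fun i => c * L i) = fun i => c * sg t j L i := by
  funext i
  unfold sg
  by_cases h : i = j
  · subst h
    rw [Function.update_self, Function.update_self]
    ring
  · rw [Function.update_of_ne h, Function.update_of_ne h]

theorem run_smul (w : List ℕ) (c : ℂ) (L : ℕ → ℂ) :
    run t w (fun i => c * L i) = fun i => c * run t w L i := by
  induction w generalizing L with
  | nil => rfl
  | cons a w ih => rw [run_cons, sg_smul, ih, run_cons]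

/-- The half twist and one letter. -/
theorem sg_Dl {a : ℕ} (ha : a < n) (L : ℕ → ℂ) :
    sg t (a + 1) (Dl t (n + 1) L) = Dl t (n + 1) (sg t (n - 1 - a + 1) L) := by
  funext j
  by_cases h : j = a + 1
  · subst h
    unfold sg
    rw [Function.update_self]
    unfold Dl
    have e1 : n + 1 - (a + 1) = n - 1 - a + 1 := by omega
    have e2 : n + 1 - (a + 1 + 1) = n - 1 - a := by omega
    have e3 : n + 1 - (a + 1 - 1) = n - 1 - a + 1 + 1 := by omega
    rw [e1, e2, e3, Function.update_self, Nat.add_sub_cancel, Nat.add_sub_cancel]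
    ring
  · unfold sg
    rw [Function.update_of_ne h]
    unfold Dl
    rw [Function.update_of_ne (by omega)]

/-- The half twist and words. -/
theorem run_flip {w : List ℕ} (hw : ∀ a ∈ w, a < n) (L : ℕ → ℂ) :
    run t w (Dl t (n + 1) L) = Dl t (n + 1) (run t (flip n w) L) := by
  induction w generalizing L with
  | nil => rfl
  | cons a w ih =>
    have e : flip n (a :: w) = (n - 1 - a) :: flip n w := rfl
    rw [e, run_cons, run_cons, sg_Dl (hw a (by simp)), ih (fun b hb => hw b (by simp [hb]))]

theorem Dl_at_zero {L : ℕ → ℂ} (hn : ∀ j, n < j → L j = 0) : Dl t (n + 1) L 0 = 0 := by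
  unfold Dl
  rw [Nat.sub_zero, hn (n + 1) (by omega), mul_zero]

theorem Dl_gt {L : ℕ → ℂ} (h0 : L 0 = 0) : ∀ j, n < j → Dl t (n + 1) L j = 0 := by
  intro j hj
  unfold Dl
  rw [Nat.sub_eq_zero_of_le (by omega), h0, mul_zero]

/-- Two half twists. -/
theorem Dl_Dl {L : ℕ → ℂ} (h0 : L 0 = 0) (hn : ∀ j, n < j → L j = 0) :
    Dl t (n + 1) (Dl t (n + 1) L) = fun j => t ^ (n + 1) * L j := by
  funext j
  rcases le_or_gt j (n + 1) with h | h
  · unfold Dl
    have e1 : n + 1 - (n + 1 - j) = j := by omega
    have e2 : t ^ (n + 1) = t ^ j * t ^ (n + 1 - j) := by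
      rw [← pow_add]
      congr 1
      omega
    rw [e1, e2]
    ring
  · rw [Dl_gt (Dl_at_zero hn) j (by omega), hn j (by omega), mul_zero]

theorem act_ge (t : ℂ) : ∀ (A : List ℕ) (N : ℕ) (L : ℕ → ℂ), (∀ r ∈ A, r ≤ N) →
    ∀ j, N ≤ j → act t A L j = L j := by
  intro A
  induction A with
  | nil => intro N L _ j _; rfl
  | cons r A ih =>
    intro N L hA j hj
    have hr := hA r (by simp)
    rw [act_cons, ih N _ (fun r hr => hA r (by simp [hr])) j hj]
    unfold T
    rw [if_neg (by omega)]

/-- The word of the half twist. -/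
theorem run_wd_down {L : ℕ → ℂ} (h0 : L 0 = 0) (hn : ∀ j, n < j → L j = 0) :
    run t (wd (down (n + 1))) L = Dl t (n + 1) L := by
  rw [run_wd t _ h0]
  funext j
  rcases le_or_gt j (n + 1) with h | h
  · exact act_down t (n + 1) h0 (hn _ (by omega)) j h
  · rw [act_ge t _ (n + 1) L (fun r hr => (mem_down.1 hr).2) j h.le, Dl_gt h0 j (by omega), hn j (by omega)]

@[simp] theorem tw_zero (n : ℕ) : tw n 0 = [] := rfl

theorem tw_succ (n p : ℕ) : tw n (p + 1) = wd (down (n + 1)) ++ tw n p := by
  unfold tw
  rw [List.replicate_succ, List.flatten_cons]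

theorem tw_one (n : ℕ) : tw n 1 = wd (down (n + 1)) := by
  rw [tw_succ, tw_zero, List.append_nil]

theorem tw_lt (n p : ℕ) : ∀ a ∈ tw n p, a < n := by
  intro a ha
  unfold tw at ha
  obtain ⟨l, hl, hal⟩ := List.mem_flatten.1 ha
  rw [List.eq_of_mem_replicate hl] at hal
  exact wd_lt (fun r hr => (mem_down.1 hr).2) a hal

theorem run_tw_one {L : ℕ → ℂ} (h0 : L 0 = 0) (hn : ∀ j, n < j → L j = 0) :
    run t (tw n 1) L = Dl t (n + 1) L := by
  rw [tw_one]
  exact run_wd_down h0 hn

theorem iter_Dl_zero_gt {L : ℕ → ℂ} (h0 : L 0 = 0) (hn : ∀ j, n < j → L j = 0) (p : ℕ) :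
    (Dl t (n + 1))^[p] L 0 = 0 ∧ ∀ j, n < j → (Dl t (n + 1))^[p] L j = 0 := by
  induction p with
  | zero => exact ⟨h0, hn⟩
  | succ p ih =>
    rw [Function.iterate_succ_apply']
    exact ⟨Dl_at_zero ih.2, Dl_gt ih.1⟩

/-- The word of `p` half twists. -/
theorem run_tw (p : ℕ) {L : ℕ → ℂ} (h0 : L 0 = 0) (hn : ∀ j, n < j → L j = 0) :
    run t (tw n p) L = (Dl t (n + 1))^[p] L := by
  induction p generalizing L with
  | zero => rfl
  | succ p ih =>
    rw [tw_succ, run_append, run_wd_down h0 hn, ih (Dl_at_zero hn) (Dl_gt h0), Function.iterate_succ_apply]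

theorem run_tw_two {L : ℕ → ℂ} (h0 : L 0 = 0) (hn : ∀ j, n < j → L j = 0) :
    run t (tw n 2) L = fun j => t ^ (n + 1) * L j := by
  rw [run_tw 2 h0 hn, Function.iterate_succ_apply, Function.iterate_one, Dl_Dl h0 hn]

theorem iter_Dl_two (p : ℕ) {L : ℕ → ℂ} (h0 : L 0 = 0) (hn : ∀ j, n < j → L j = 0) :
    (Dl t (n + 1))^[p + p] L = fun j => (t ^ (n + 1)) ^ p * L j := by
  induction p with
  | zero => simp
  | succ p ih =>
    rw [show p + 1 + (p + 1) = p + p + 1 + 1 by omega, Function.iterate_succ_apply',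
      Function.iterate_succ_apply', ih, Dl_Dl]
    · funext j
      rw [pow_succ]
      ring
    · rw [h0, mul_zero]
    · intro j hj
      rw [hn j hj, mul_zero]

theorem iter_flip_lt {w : List ℕ} (hw : ∀ a ∈ w, a < n) (p : ℕ) : ∀ a ∈ (flip n)^[p] w, a < n := by
  induction p with
  | zero => exact hw
  | succ p ih =>
    rw [Function.iterate_succ_apply']
    exact flip_lt ih

theorem iter_once_flip {w : List ℕ} (hw : ∀ a ∈ w, a < n) (h : Once id w) (p : ℕ) :
    Once id ((flip n)^[p] w) := by
  induction p with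
  | zero => exact h
  | succ p ih =>
    rw [Function.iterate_succ_apply']
    exact once_flip (iter_flip_lt hw p) ih

theorem iter_flip_flatten (R : List (List ℕ)) (p : ℕ) :
    (flip n)^[p] R.flatten = (R.map ((flip n)^[p])).flatten := by
  induction p with
  | zero => simp
  | succ p ih =>
    rw [Function.iterate_succ_apply', ih, flip_flatten, List.map_map]
    congr 2
    funext w
    rw [Function.comp, Function.iterate_succ_apply']

theorem run_iter_flip {w : List ℕ} (hw : ∀ a ∈ w, a < n) (p : ℕ) (L : ℕ → ℂ) :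
    run t w ((Dl t (n + 1))^[p] L) = (Dl t (n + 1))^[p] (run t ((flip n)^[p] w) L) := by
  induction p generalizing L with
  | zero => rfl
  | succ p ih =>
    rw [Function.iterate_succ_apply, ih, run_flip (iter_flip_lt hw p), Function.iterate_succ_apply,
      Function.iterate_succ_apply' (flip n)]

/-- **The square of a word with half twists.** `(Δ ^ p W) ^ 2` is `Δ ^ (2 p)`, a scalar, times the
flipped word `W` and `W`. -/
theorem run_square {w : List ℕ} (hw : ∀ a ∈ w, a < n) (p : ℕ) {L : ℕ → ℂ} (h0 : L 0 = 0)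
    (hn : ∀ j, n < j → L j = 0) :
    run t (tw n p ++ w ++ (tw n p ++ w)) L =
      fun j => (t ^ (n + 1)) ^ p * run t ((flip n)^[p] w ++ w) L j := by
  have hf := iter_flip_lt hw p
  obtain ⟨h1, h2⟩ := iter_Dl_zero_gt (t := t) (n := n) h0 hn p
  rw [run_append, run_append, run_append, run_tw p h0 hn, run_tw p (run_zero w h1) (run_gt hw h2),
    run_iter_flip hw p L, ← Function.iterate_add_apply, iter_Dl_two p (run_zero _ h0) (run_gt hf hn),
    run_smul, run_append]

end Pool.Agent.Helper85.GA
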